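import Pool.Agent.Q238.AR.Main

/-!
# MP_310563_al: an infinite torsion subgroup in an asymptotically rigid mapping class group

`RigidSurface` (a locally finite planar tree, thickened in the plane, with a rigid structure) and
its asymptotically rigid mapping class group `RigidSurface.Mod` are defined in
`Pool.Agent.Q238.AR.Defs`. The example is the tree `A_{2,1}`, with one vertex of degree one and
all other vertices of degree three.
-/

set_option autoImplicit false

namespace Pool.Agent.Results.MP_310563_al.InfiniteTorsion

open Pool.Agent.Q238.AR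

/-- There is a locally finite planar tree with one vertex of degree one and all other vertices of
degree three whose asymptotically rigid mapping class group contains elements `c 0, c 1, ...` with
`c (k + 1) ^ 2 = c k` and `c k` of order `2 ^ k`; the subgroup generated by them (a Prüfer
`2`-group) is infinite and torsion. -/
theorem result : ∃ X : RigidSurface,
    (∃ v0 : X.V, (X.T.neighborSet v0).ncard = 1 ∧
      ∀ v, v ≠ v0 → (X.T.neighborSet v).ncard = 3) ∧
    ∃ c : ℕ → X.Mod, (∀ k, c (k + 1) ^ 2 = c k ∧ orderOf (c k) = 2 ^ k) ∧
      Infinite (Subgroup.closure (Set.range c)) ∧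
      ∀ h ∈ Subgroup.closure (Set.range c), IsOfFinOrder h := by
  refine ⟨XX, ⟨(0 : ℕ), XX_tree.1, XX_tree.2⟩, ck, fun k => ⟨ck_sq k, ck_order k⟩, ?_, ?_⟩
  · rw [← HHH_closure]
    exact HHH_infinite
  · intro h hh
    rw [← HHH_closure] at hh
    obtain ⟨k, hk⟩ := HHH_pow hh
    exact isOfFinOrder_iff_pow_eq_one.2 ⟨2 ^ k, by positivity, hk⟩

end Pool.Agent.Results.MP_310563_al.InfiniteTorsion
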